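import Mathlib
import Pool.Agent.U606.AJ.Main
import Pool.Agent.U606.MD.Ghc

/-!
# The kernel of the Abel–Jacobi map for motives of abelian type

Let `X` be a complex abelian variety (`AV`, up to isogeny) and `M = (X, p)` a direct summand of the
Chow motive of `X`, for example `M = h(V)`, where `V` is a smooth projective variety which is the
image of `X`, or the image of a product of curves of positive genus such that the product of their
Jacobians is `X`. We consider the complex Abel–Jacobi map on the homologically trivial cycles of
dimension `i` on `M`, with rational coefficients (if `M = h(V)`, `dim V = d`, these are the cycles of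
codimension `d - i`).

**Theorem.** (1) Let `M = ⊕ M_m`, `M_m = (X, P m)`, be **any** Chow–Künneth decomposition of `M`. The
kernel of the Abel–Jacobi map is the step `F^2 CH_i(M)` of Murre's filtration in the following cases:
(A) `H^m(M) = 0` for `i + 2 ≤ m ≤ 2 i + 1`, and `X` is any abelian variety; in particular this holds
for zero-cycles, without any hypothesis on `M`; (B) `X` belongs to one of the classes (a), (b) below
and `h^(s, t)(M) = 0` for all `s, t` with `s + t ≤ 2 i + 1` and `max (s, t) ≥ i + 2`; for cycles of
dimension one this is the condition `h^(3, 0)(M) = 0`, and it holds in all dimensions if the Hodge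
level of `M` is at most two.

(2) If `X` belongs to one of the classes (a), (b) and `h^(s, t)(M) = 0` whenever
`min (s, t) ≤ i` and `max (s, t) ≥ i + 2`, then the Abel–Jacobi map is injective on
`CH_i(M)_hom ⊗ ℚ`.

If `V` is defined over `ℚ` (or over any subfield of `ℂ`), (2) applies to the cycles on `V`, because
`CH(V) ⊗ ℚ` is a subgroup of `CH(V_ℂ) ⊗ ℚ`: in codimension `j` the condition is
`h^(s, t)(V) = 0` for `s ≥ j`, `t ≤ j - 2`.

The classes (a) and (b) (`IsGood` in `Pool.Agent.U606.MD.Defs`) are those of the starting file
`Pool.Agent.Results.MP_1c689d_ag.AbelianDominated`, where `P` is the class of the simple abelian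
varieties of any dimension with small or generic period fields (`Pool.Agent.N994.PG.Stm`):

(a) all simple factors of `X` are in `P` or are factors of an abelian variety of dimension at most
three;

(b) there are finitely many CM types `T k`, divided into independent blocks, such that for each block
all CM types of the CM fields in this block are conjugate, or the total dimension of the block is at
most three, or the block consists of all CM types of a Galois CM field of degree at most six; and
each simple factor of `X` is in `P`, or is a factor of one of the abelian varieties with the CM types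
`T k`, or has no complex multiplication and belongs to one of the classes in `Typ` (of any
dimension), where an imaginary quadratic field which acts with two different multiplicities on the
tangent space must be the field of an elliptic curve of the first kind (fourfolds with such an
action are excluded).

The structures `ChowTheory` (`Pool.Agent.N178.BL.Defs`) and `Projectors` (`Pool.Agent.N178.MU.Defs`)
collect the known properties of the Chow groups of complex abelian varieties which are used: the
formal properties of correspondences; Kimura's theorem that homologically trivial endomorphisms of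
the motive are nilpotent; the semisimplicity of the category of motives of abelian varieties modulo
homological equivalence (Jannsen, Lieberman); the algebraic classes are a system `Sys` (Lefschetz,
Markman); the algebraicity of the isomorphisms `H^n(Y, ℚ) ≅ H_n(Y, ℚ)` given by a polarization
(Lieberman); the projectors of Deninger and Murre; the vanishing of the cycles of codimension at most
one on `h^n(Y)` for large `n`, and of the homologically trivial divisors on `h^2(Y)` (Beauville,
Künnemann). The structure `AbelJacobi` (`Pool.Agent.U606.AJ.Defs`) collects the known properties of
the Abel–Jacobi map: it is a functorial homomorphism, its effect on `f_* z` only depends on the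
action of `f` on the homology in degree `2 i + 1`, and the zero-cycles on `h_1(Y)` are `Alb(Y) ⊗ ℚ`.

The proof. The parts of weight `m ≤ 2 i` kill the homologically trivial cycles (this is Murre's
conjecture (D), `Pool.Agent.N178.MU.vanish`; for `m ≤ i + 1` no condition on `X` is needed). By the
generalized Hodge conjecture for `X` and nilpotence, the part of weight `2 i + 1` is a direct summand
of a sum of motives `h_1(Y)(i)`, and the zero-cycles on `h_1(Y)` are determined by their Albanese
image. The parts of weight `m ≥ 2 i + 2` do not contribute to the Abel–Jacobi map; in (2) they are
direct summands of motives `h_(m - 2 i - 2)(Y)(i + 1)`, on which there are no cycles of dimension `i`,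
or of sums of Tate motives.
-/

namespace Pool.Agent.Results.MP_e28333_ag.AbelJacobiKernel

open Module Pool.Agent.Y90
open Pool.Agent.N178.BL (ChowTheory)
open Pool.Agent.N178.MU (Projectors IsChowKunneth HodgeZero F)
open Pool.Agent.U606.MD (IsGood)
open Pool.Agent.U606.AJ (AbelJacobi)

/-- **The kernel of the Abel–Jacobi map** on the cycles of dimension `i` on the direct summand
`M = (X, p)` of the Chow motive of `X`: (1) it is `F^2 CH_i(M)` for every Chow–Künneth decomposition
`P` of `M`, if `M` has no cohomology in the degrees between `i + 2` and `2 i + 1` (in particular for
`i = 0`), or if `X` is in the classes (a), (b) and `h^(s, t)(M) = 0` for `s + t ≤ 2 i + 1`,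
`max (s, t) ≥ i + 2`; (2) it is zero if `X` is in the classes (a), (b) and `h^(s, t)(M) = 0` for
`min (s, t) ≤ i`, `max (s, t) ≥ i + 2`. The cycles on `X` are the correspondences from the point `O`
to `X`. -/
theorem result (C : ChowTheory) (K : Projectors C) (O : AV) (A : AbelJacobi C K O) (X : AV)
    (p : C.Co X X) (hp : C.IsMotive p) (i : ℤ) :
    (∀ P : ℕ → C.Co X X, IsChowKunneth p P →
      ((∀ s t : ℕ, i + 2 ≤ s + t → (s + t : ℤ) ≤ 2 * i + 1 → HodgeZero p s t) ∨
        (IsGood X ∧
          ∀ s t : ℕ, (s + t : ℤ) ≤ 2 * i + 1 → i + 2 ≤ max (s : ℤ) t → HodgeZero p s t)) →
      ∀ z : C.Co O X, C.IsDeg i z → C.o p z = z → (A.Triv i z ↔ F p P i 2 z)) ∧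
    (IsGood X → (∀ s t : ℕ, min (s : ℤ) t ≤ i → i + 2 ≤ max (s : ℤ) t → HodgeZero p s t) →
      ∀ z : C.Co O X, A.Triv i z → C.o p z = z → z = 0) := by
  refine ⟨fun P hP h z hz hpz => ?_, fun hX h z hz hpz => ?_⟩
  · rcases h with h | ⟨hX, h⟩
    · exact (Pool.Agent.U606.AJ.kernel_gap A hP h hz hpz).symm
    · exact (Pool.Agent.U606.AJ.kernel_ghc A (Pool.Agent.U606.MD.ghc hX) hP
        (fun s t hst h2 => h s t hst (le_max_iff.2 h2)) hz hpz).symm
  · refine Pool.Agent.U606.AJ.inj A (Pool.Agent.U606.MD.ghc hX) hp (fun s t hst => h s t ?_ ?_)
      hz hpz
    · rw [min_le_iff]
      omega
    · rw [le_max_iff]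
      omega

end Pool.Agent.Results.MP_e28333_ag.AbelJacobiKernel
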