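import Pool.Agent.Results.MP_e28333_ag.NormalFunctions
import Pool.Agent.U265.VH.Abs

/-!
# The Abel-Jacobi map on the members of families of cycles near the points of a curve, outside a set of Hausdorff dimension zero

The problem asks whether the kernel of the Abel-Jacobi map on homologically trivial cycles over a number field is torsion. Let `Z_a`,
`a ∈ ρ`, be families of homologically trivial cycles over a curve. The file `NormalFunctions` (helper543) bounds by `T ^ ε` the number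
of the points `s` of a number field, of bounded degree and of height at most `T`, at which the Abel-Jacobi image of a combination
`∑ N_a Z_{a,s}` with nonzero topological invariant, `|N_a| ≤ T ^ k`, is zero or very near to zero.

**Theorem.** Over a connected open subset `U` of `ℂ` there is ONE set `E` of Hausdorff dimension ZERO such that for all `x ∈ U`
outside of `E`, ALL number fields `K` in `ℂ`, all `k` and all `σ > 0` there is `b` such that for all large `T` and all points `s`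
of `K` of height at most `T` with `|x - s| ≤ T ^ (-σ)`: the Abel-Jacobi images of ALL the combinations `∑ N_a Z_{a,z}`,
`|N_a| ≤ T ^ k`, with nonzero topological invariant, at all complex points `z` within `T ^ (-b)` of `s`, for example at `z = s`, are
at distance more than `T ^ (-b)` from zero; in particular they are not zero.

So outside of a set of dimension zero no point of the curve is approximated, even very slowly, by algebraic points at which a
combination of polynomial size with nonzero invariant is in the kernel of the Abel-Jacobi map. The proof: covers by the disks of radius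
`T ^ (-σ)` around the exceptional points (`Pool.Agent.U265.VH.abs_law`, from `Pool.Agent.N84.MD.scales` of the starting library), and
there are countably many number fields in `ℂ`.
-/

set_option autoImplicit false

namespace Pool.Agent.Results.MP_e28333_ag.AbelJacobiNearAPoint

open Filter
open Pool.Agent.U543.GD (Height Inner)
open Pool.Agent.U543.NF

variable {X ρ ι κ : Type} [Fintype X] [Fintype ρ] [DecidableEq ρ] [Fintype ι] [DecidableEq ι]

/-- At all the complex points `z` of `U` within `T ^ (-b)` of `s` (for example at `z = s`) all the vectors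
`∑ N_a ν_a(z) + ∑ n_l P_l(z)`, `|N_a| ≤ T ^ k`, `(N, n)` not invariant, are greater than `T ^ (-b)`: the combinations of the sections
are at distance more than `T ^ (-b)` from the points of the lattice. -/
def Far (U : Set (X → ℂ)) (ν : (X → ℂ) → Matrix ρ κ ℂ) (P : (X → ℂ) → Matrix ι κ ℂ) (k b : ℕ) (T : ℝ) (s : X → ℂ) : Prop :=
  ∀ z ∈ U, ‖s - z‖ ≤ T ^ (-(b : ℝ)) → ∀ (N : ρ → ℤ) (n : ι → ℤ), (∀ a, |(N a : ℝ)| ≤ T ^ k) → ¬ Invariant U ν P N n →
    ∃ j, T ^ (-(b : ℝ)) < ‖∑ a, (N a : ℂ) * ν z a j + ∑ l, (n l : ℂ) * P z l j‖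

omit [Fintype X] in
lemma height_mono (K : Type) [Field K] [NumberField K] {T T' : ℝ} (h : T ≤ T') : Height K T ⊆ Height K T' := by
  rintro x ⟨a, b, hb, h1, h2, h3⟩
  exact ⟨a, b, hb, h1.trans h, h2.trans h, h3⟩

lemma inner_mono (U : Set (X → ℂ)) {k k' : ℕ} (hk : 0 < k) (h : k ≤ k') : Inner U k ⊆ Inner U k' := by
  rintro z ⟨h1, h2⟩
  have h3 : (k : ℝ) ≤ k' := by exact_mod_cast h
  have h4 : (0 : ℝ) < k := by exact_mod_cast hk
  exact ⟨h1.trans h3, (Metric.ball_subset_ball (inv_anti₀ h4 h3)).trans h2⟩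

/-- growing sizes -/
lemma near_k {U : Set (X → ℂ)} {ν : (X → ℂ) → Matrix ρ κ ℂ} {P : (X → ℂ) → Matrix ι κ ℂ} {S : Set ((ρ → ℤ) × (ι → ℤ))}
    {k k' : ℕ} (hk : 0 < k) (hkk : k ≤ k') {B : ℝ} (K : Type) [Field K] [NumberField K] (io : K →+* ℂ) {T : ℝ} (hT : 1 ≤ T) :
    Near U ν P S k B K io T ⊆ Near U ν P S k' B K io T := by
  rintro s ⟨h1, h2, z, hz, hsz, N, n, hN, hp, hn⟩
  exact ⟨h1, inner_mono U hk hkk h2, z, hz, hsz, N, n, fun a => (hN a).trans (pow_le_pow_right₀ hT hkk), hp, hn⟩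

/-- growing heights -/
lemma near_T {U : Set (X → ℂ)} {ν : (X → ℂ) → Matrix ρ κ ℂ} {P : (X → ℂ) → Matrix ι κ ℂ} {S : Set ((ρ → ℤ) × (ι → ℤ))}
    (k b : ℕ) (K : Type) [Field K] [NumberField K] (io : K →+* ℂ) {T T' : ℝ} (hT : 1 ≤ T) (hb : 2 ^ b ≤ T) (h1 : T ≤ T')
    (h2 : T' ≤ 2 * T) : Near U ν P S k ((b + 1 : ℕ) : ℝ) K io T ⊆ Near U ν P S k (b : ℝ) K io T' := by
  have h0 : T ^ (-((b + 1 : ℕ) : ℝ)) ≤ T' ^ (-(b : ℝ)) := by
    rw [Real.rpow_neg (by linarith), Real.rpow_neg (by linarith), Real.rpow_natCast, Real.rpow_natCast]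
    refine inv_anti₀ (pow_pos (by linarith) _) ?_
    calc T' ^ b ≤ (2 * T) ^ b := pow_le_pow_left₀ (by linarith) h2 _
      _ = 2 ^ b * T ^ b := mul_pow _ _ _
      _ ≤ T * T ^ b := mul_le_mul_of_nonneg_right hb (pow_nonneg (by linarith) _)
      _ = T ^ (b + 1) := by ring
  rintro s ⟨g1, g2, z, hz, hsz, N, n, hN, hp, hn⟩
  exact ⟨fun j => height_mono K h1 (g1 j), g2, z, hz, hsz.trans h0, N, n,
    fun a => (hN a).trans (pow_le_pow_left₀ (by linarith) h1 _), hp, fun j => (hn j).trans h0⟩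

/-- **The Abel-Jacobi map near the points of a curve, outside a set of Hausdorff dimension zero.** -/
theorem result (X ρ ι κ : Type) [Fintype X] [DecidableEq X] [Nonempty X] [Fintype ρ] [DecidableEq ρ] [Fintype ι]
    [DecidableEq ι] [Fintype κ] [DecidableEq κ] (hX : Fintype.card X = 1) (U : Set (X → ℂ)) (ν : (X → ℂ) → Matrix ρ κ ℂ)
    (P : (X → ℂ) → Matrix ι κ ℂ) (h : NormalFunctions U ν P) :
    ∃ E : Set (X → ℂ), dimH E = 0 ∧ ∀ x ∈ U, x ∉ E → ∀ (K : Subfield ℂ) [NumberField K] (k : ℕ) (σ : ℝ), 0 < σ →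
      ∃ b : ℕ, ∀ᶠ T : ℝ in atTop, ∀ s : X → K, (∀ j, s j ∈ Height K T) → (∀ j, ‖x j - (s j : ℂ)‖ ≤ T ^ (-σ)) →
        Far U ν P k b T fun j => (s j : ℂ) := by
  classical
  obtain ⟨E, hE, hlaw⟩ := Pool.Agent.U265.VH.abs_law
    (fun (_ : Unit) (K : Subfield ℂ) (_ : NumberField K) (k b : ℕ) (T : ℝ) =>
      Near U ν P {p | ¬ Invariant U ν P p.1 p.2} (k + 1) (b : ℝ) K K.subtype T)
    (fun _ K _ k b => ⟨max 1 (2 ^ b), fun T T' h1 h2 h3 =>
      near_T (k + 1) b K K.subtype ((le_max_left _ _).trans h1) ((le_max_right _ _).trans h1) h2 h3⟩)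
    (fun _ K _ k ε hε => by
      obtain ⟨k', hk1, hk2⟩ : ∃ k', k + 1 ≤ k' ∧ Module.finrank ℚ K ≤ k' :=
        ⟨max (k + 1) (Module.finrank ℚ K), le_max_left _ _, le_max_right _ _⟩
      obtain ⟨D, B, C, T₀, hC, hT₀, H⟩ := (NormalFunctions.result X ρ ι κ U ν P h).1 k' ε hε
      refine ⟨⌈B⌉₊, D * C, T₀, fun T hT => ?_⟩
      have hT1 : 1 ≤ T := by linarith
      obtain ⟨-, h2, h3⟩ := H T hT K hk2 K.subtype {p | ¬ Invariant U ν P p.1 p.2} (fun p hp => hp)
      have hsub := (near_k (U := U) (ν := ν) (P := P) (S := {p | ¬ Invariant U ν P p.1 p.2}) (B := (⌈B⌉₊ : ℝ))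
        (Nat.succ_pos k) hk1 K K.subtype hT1).trans
        (near_mono subset_rfl (Nat.le_ceil B) K K.subtype hT1)
      rw [hX, Nat.sub_self, pow_zero, mul_one] at h3
      refine ⟨h2.subset hsub, le_trans ?_ h3⟩
      exact_mod_cast Set.ncard_le_ncard hsub h2)
  refine ⟨E, hE, fun x hx hxE K _ k σ hσ => ?_⟩
  obtain ⟨k', hk1, hk2, hin⟩ := Pool.Agent.U265.VH.inner_near h.family.isOpen hx k
  obtain ⟨m, rfl⟩ : ∃ m, k' = m + 1 := ⟨k' - 1, by omega⟩
  obtain ⟨b, h1⟩ := hlaw x hxE () K m σ hσ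
  refine ⟨b, ?_⟩
  filter_upwards [h1, hin σ hσ, eventually_ge_atTop (1 : ℝ)] with T h2 h3 h4 s h5 h6
  intro z hz hsz N n hN hp
  by_contra hcon
  push Not at hcon
  exact h2 s ⟨h5, h3 _ h6, z, hz, hsz, N, n, fun a => (hN a).trans (pow_le_pow_right₀ h4 hk1), hp, hcon⟩ h6

end Pool.Agent.Results.MP_e28333_ag.AbelJacobiNearAPoint
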