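import Pool.Agent.U543.NfFin

/-!
# The Abel-Jacobi map on the members of families of cycles: specialisation of normal functions

The problem asks whether the kernel of the Abel-Jacobi map on homologically trivial cycles over `ℚ` (or over a number
field) is torsion. Let `Z_a`, `a ∈ ρ`, be families of homologically trivial cycles of codimension `i` on the fibres `𝒳_s`
of a smooth projective family over a base `S`. Over a chart `U` of a finite covering of `S` the Abel-Jacobi images of the
`Z_{a,s}` are given by the vectors `ν_a(s)` of the integrals of a basis `ω_j(s)` of the step of the Hodge filtration over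
chains with the boundary `Z_{a,s}`, modulo the lattice generated by the rows of the matrix `P(s)` of the periods of the
`ω_j(s)`. The monodromy maps `ν` to `ν + a P` and `P` to `M P`; a combination `∑ N_a ν_a + ∑ n_l P_l` is invariant under
the monodromy for some `n` if and only if the topological invariant of `∑ N_a Z_a`, a class in the first cohomology group
of the monodromy group, vanishes.

If the Abel-Jacobi image of `∑ N_a Z_{a,s}` is zero at a very general point `s`, this class is zero. We show this for
algebraic points: for any number of variables and any family of complex tori with analytic sections (no algebraicity, no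
heights), if `s` is an algebraic point of bounded degree and of height at most `T`, outside at most `T ^ ε` hypersurfaces
of bounded degree, and the Abel-Jacobi image of `∑ N_a Z_{a,s}`, `|N_a| ≤ T ^ k`, is zero, or only at distance at most
`T ^ (-B)` from zero, then the topological invariant of `∑ N_a Z_a` is zero. In particular if the topological
invariants of the `Z_a` are linearly independent then on the group generated by the `Z_{a,s}` the kernel of the
Abel-Jacobi map contains no nonzero combination with coefficients at most `T ^ k`, and the images of these combinations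
are not nearer to zero than `T ^ (-B)`. For one family this bounds the order of torsion from below.
-/

namespace Pool.Agent.Results.MP_e28333_ag.NormalFunctions

open Filter
open Pool.Agent.U543.GD (Height Covered IsMonodromy)
open Pool.Agent.U543.NF

/-- **Specialisation of normal functions.** Let `ℂ ^ κ / ℤ ^ ι P(x)` be a family of complex tori over a connected open set
`U` of `ℂ ^ X`, with sections given by the rows of `ν(x)`, `P` and `ν` analytic, such that `ℂ(x)` is algebraically closed
in `ℂ(x, ν, P)` (`NormalFunctions`). Let `Mon` be the set of the integral matrices `(1, a; 0, M)` such that `ν + a P` and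
`M P` satisfy all polynomial relations over `ℂ[x]` between `ν` and `P`. Let `S` be a set of pairs `(N, n)` of integral
vectors none of which is invariant under `Mon`; for example, if the sections are topologically independent, that is if
no `(N, n)` with `N ≠ 0` is invariant, the set of all `(N, n)` with `N ≠ 0`. Let `Near` be the set of the points `s` of `U`
with coordinates in `K` of height at most `T`, of norm at most `k` and at distance at least `1 / k` from the complement
of `U`, such that for some complex point `z` of `U` with `|s - z| ≤ T ^ (-B)` (for example `z = s`) and some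
`(N, n) ∈ S`, `|N_a| ≤ T ^ k`, the vector `∑ N_a ν_a(z) + ∑ n_l P_l(z)` is zero or at most `T ^ (-B)`.

(1) For every `k` and `ε > 0` there are `D`, `B`, `C` such that for all large `T`, all number fields `K` of degree at
most `k`, embedded in `ℂ`, and all such `S` the set `Near` lies on at most `C T ^ ε` hypersurfaces of degree at most `D`,
and has at most `D C T ^ ε N ^ (|X| - 1)` elements, `N` being the number of elements of `K` of height at most `T`.
(2) For every function `φ → ∞` there is `ω → ∞` such that for all large `T`, `k = ω T`, `B = φ T`, and all such `K` and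
`S` this set lies on at most `T ^ (1 / k)` hypersurfaces of degree at most `T ^ (1 / k)`, and has at most
`T ^ (1 / k) N ^ (|X| - 1)` elements.
(3) The integral monodromy matrices `(1, a; 0, M)` are in `Mon`. -/
theorem result (X ρ ι κ : Type) [Fintype X] [DecidableEq X] [Nonempty X] [Fintype ρ] [DecidableEq ρ] [Fintype ι]
    [DecidableEq ι] [Fintype κ] [DecidableEq κ] (U : Set (X → ℂ)) (ν : (X → ℂ) → Matrix ρ κ ℂ)
    (P : (X → ℂ) → Matrix ι κ ℂ) (h : NormalFunctions U ν P) :
    (∀ (k : ℕ) (ε : ℝ), 0 < ε → ∃ (D : ℕ) (B C T₀ : ℝ), 0 ≤ C ∧ 2 ≤ T₀ ∧ ∀ T, T₀ ≤ T →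
      ∀ (K : Type) [Field K] [NumberField K], Module.finrank ℚ K ≤ k → ∀ (io : K →+* ℂ)
        (S : Set ((ρ → ℤ) × (ι → ℤ))), (∀ p ∈ S, ¬ Invariant U ν P p.1 p.2) →
        Covered D ⌊C * T ^ ε⌋₊ ((fun (s : X → K) j => io (s j)) '' Near U ν P S k B K io T) ∧
        (Near U ν P S k B K io T).Finite ∧
        ((Near U ν P S k B K io T).ncard : ℝ) ≤ D * C * T ^ ε * ((Height K T).ncard : ℝ) ^ (Fintype.card X - 1)) ∧
    (∀ φ : ℝ → ℝ, Tendsto φ atTop atTop → ∃ (ω : ℝ → ℕ) (T₀ : ℝ), Tendsto ω atTop atTop ∧ Monotone ω ∧
      ∀ T, T₀ ≤ T → 0 < ω T ∧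
      ∀ (K : Type) [Field K] [NumberField K], Module.finrank ℚ K ≤ ω T → ∀ (io : K →+* ℂ)
        (S : Set ((ρ → ℤ) × (ι → ℤ))), (∀ p ∈ S, ¬ Invariant U ν P p.1 p.2) →
        Covered ⌊T ^ ((ω T : ℝ)⁻¹)⌋₊ ⌊T ^ ((ω T : ℝ)⁻¹)⌋₊
          ((fun (s : X → K) j => io (s j)) '' Near U ν P S (ω T) (φ T) K io T) ∧
        (Near U ν P S (ω T) (φ T) K io T).Finite ∧
        ((Near U ν P S (ω T) (φ T) K io T).ncard : ℝ) ≤
          T ^ ((ω T : ℝ)⁻¹) * ((Height K T).ncard : ℝ) ^ (Fintype.card X - 1)) ∧
    ∀ (a : Matrix ρ ι ℤ) (M : Matrix ι ι ℤ),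
      IsMonodromy U (fun x => Matrix.fromRows (ν x) (P x)) ((Matrix.fromBlocks 1 a 0 M).map (Int.cast : ℤ → ℂ)) →
      Matrix.fromBlocks 1 a 0 M ∈ Mon U ν P := by
  refine ⟨fun k ε hε => ?_, fun φ hφ => ?_, fun a M hg =>
    ⟨⟨a, M, rfl⟩, Pool.Agent.U543.GD.gal_of_monodromy h.family.isPreconnected h.family.analytic hg⟩⟩
  · obtain ⟨D, B, C, T₀, hC, hT₀, H⟩ := nf_fix h k ε hε
    refine ⟨D, B, C, T₀, hC, hT₀, fun T hT K _ _ hK io S hS => ?_⟩
    obtain ⟨e1, e2, e3⟩ := H T hT K hK io
    have hsub : Near U ν P S k B K io T ⊆ Near U ν P {p | ¬ Invariant U ν P p.1 p.2} k B K io T :=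
      near_mono (fun p hp => hS p hp) le_rfl K io (by linarith)
    refine ⟨Pool.Agent.Y124.Cov.mono e1 le_rfl le_rfl (Set.image_mono hsub), e2.subset hsub, le_trans ?_ e3⟩
    exact_mod_cast Set.ncard_le_ncard hsub e2
  · obtain ⟨ω, T₀, h1, h2, H⟩ := nf_grow h φ hφ
    refine ⟨ω, max T₀ 1, h1, h2, fun T hT => ⟨(H T ((le_max_left _ _).trans hT)).1, fun K _ _ hK io S hS => ?_⟩⟩
    have hT1 : 1 ≤ T := (le_max_right _ _).trans hT
    obtain ⟨e1, e2, e3⟩ := (H T ((le_max_left _ _).trans hT)).2 K hK io
    have hsub : Near U ν P S (ω T) (φ T) K io T ⊆ Near U ν P {p | ¬ Invariant U ν P p.1 p.2} (ω T) (φ T) K io T :=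
      near_mono (fun p hp => hS p hp) le_rfl K io hT1
    refine ⟨Pool.Agent.Y124.Cov.mono e1 le_rfl le_rfl (Set.image_mono hsub), e2.subset hsub, le_trans ?_ e3⟩
    exact_mod_cast Set.ncard_le_ncard hsub e2

end Pool.Agent.Results.MP_e28333_ag.NormalFunctions
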