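import Pool.Agent.U644.SQ.Main

/-!
# Zero-cycles on products of curves and products of algebraically trivial cycles

Over an algebraic closure of the rational numbers the following are equivalent, up to torsion: for all
points `a`, `b` of all curves `C` the zero-cycle `([a] - [b]) × ([a] - [b])` on `C × C` vanishes;
`z × z = 0`, or `z × w = 0`, or `z · w = 0`, for all algebraically trivial cycles of all codimensions
on all varieties; the Abel-Jacobi map is injective on zero-cycles of products of two curves; it is
injective on zero-cycles of all varieties dominated by products of curves.
-/

set_option autoImplicit false

namespace Pool.Agent.Results.MP_e28333_ag.SquaresOfDifferences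

open Pool.Agent.U644.SQ

universe u v w

/-- Let `T` be the data of the rational Chow groups of the smooth projective connected varieties
over an algebraically closed field, with the known properties. The following are equivalent:
`[(a, a)] - [(a, b)] - [(b, a)] + [(b, b)] = 0` for all points `a`, `b` of all curves; `z × z = 0` for
all algebraically trivial `z`; `z × w = 0` for all algebraically trivial `z`, `w`; `z · w = 0` for all
algebraically trivial `z`, `w`; the Abel-Jacobi map is injective on zero-cycles on products of two
curves; it is injective on zero-cycles on all varieties dominated by products of curves. -/
theorem result (T : ChowTheory.{u, v, w}) (h : T.Known) :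
    List.TFAE [T.FourTerm, T.Squares, T.Exterior, T.Intersections, T.TwoCurves, T.AllBuilt] :=
  ChowTheory.equivalences h

end Pool.Agent.Results.MP_e28333_ag.SquaresOfDifferences
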